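import Pool.Agent.H11.NZ.Targets

/-!
# Module FBF of the board nz_modules
-/

set_option autoImplicit false

open Equiv (Perm)

namespace Pool.Agent.H85.NZ.FBF

open Pool.Agent.H11.NY
open Pool.Agent.H11.NZ

/-- the elements with support in `J` -/
def PJ {I : Type} (T : I → Type) [∀ i, Group (T i)] (J : Finset I) : Subgroup (∀ i, T i) where
  carrier := {w | ∀ i ∉ J, w i = 1}
  one_mem' := fun i _ => rfl
  mul_mem' := by
    intro x y hx hy i hi
    rw [Pi.mul_apply, hx i hi, hy i hi, one_mul]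
  inv_mem' := by
    intro x hx i hi
    rw [Pi.inv_apply, hx i hi, inv_one]

theorem pf_fbf : T_FBF := by
  intro I _ _ T _ _ R σ τ hO hR s J hJ
  have hfin : Finite ((∀ i, T i) ⧸ PJ T J) := inferInstance
  have : Fintype ((∀ i, T i) ⧸ PJ T J) := Fintype.ofFinite _
  have h1 : Nat.card {x : ∀ i, T i // x⁻¹ * τ x ∈ R} =
      ∑ q : (∀ i, T i) ⧸ PJ T J, Nat.card {x : {x : ∀ i, T i // x⁻¹ * τ x ∈ R} //
        (QuotientGroup.mk x.1 : (∀ i, T i) ⧸ PJ T J) = q} := by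
    rw [← Nat.card_sigma]
    exact Nat.card_congr (Equiv.sigmaFiberEquiv
      (fun x : {x : ∀ i, T i // x⁻¹ * τ x ∈ R} =>
        (QuotientGroup.mk x.1 : (∀ i, T i) ⧸ PJ T J))).symm
  have h2 : ∀ q : (∀ i, T i) ⧸ PJ T J, s * Nat.card {x : {x : ∀ i, T i // x⁻¹ * τ x ∈ R} //
      (QuotientGroup.mk x.1 : (∀ i, T i) ⧸ PJ T J) = q} ≤ Nat.card (PJ T J) := by
    intro q
    by_cases hne : Nonempty {x : {x : ∀ i, T i // x⁻¹ * τ x ∈ R} //
      (QuotientGroup.mk x.1 : (∀ i, T i) ⧸ PJ T J) = q}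
    · obtain ⟨⟨⟨x0, hx0⟩, hq⟩⟩ := hne
      let τ' : (∀ i, T i) ≃* (∀ i, T i) := τ.trans (MulAut.conj (x0⁻¹ * τ x0))
      have hτ' : ∀ y, τ' y = (x0⁻¹ * τ x0) * τ y * (x0⁻¹ * τ x0)⁻¹ := fun y => rfl
      have hO' : Over σ τ' := by
        intro i x y hxy
        have h3 := hO i x y hxy
        rw [hτ', hτ']
        simp only [Pi.mul_apply, Pi.inv_apply]
        rw [h3]
      have hR' : ∀ r ∈ R, τ' r ∈ R := by
        intro r hr
        rw [hτ']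
        exact R.mul_mem (R.mul_mem hx0 (hR r hr)) (R.inv_mem hx0)
      refine le_trans (Nat.mul_le_mul_left s ?_) (hJ τ' hO' hR')
      have key : ∀ x : {x : {x : ∀ i, T i // x⁻¹ * τ x ∈ R} //
          (QuotientGroup.mk x.1 : (∀ i, T i) ⧸ PJ T J) = q},
          (∀ i ∉ J, (x0⁻¹ * x.1.1) i = 1) ∧ (x0⁻¹ * x.1.1)⁻¹ * τ' (x0⁻¹ * x.1.1) ∈ R := by
        rintro ⟨⟨x, hx⟩, hxq⟩
        refine ⟨?_, ?_⟩
        · have h4 : (QuotientGroup.mk x0 : (∀ i, T i) ⧸ PJ T J) = QuotientGroup.mk x :=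
            hq.trans hxq.symm
          exact QuotientGroup.eq.mp h4
        · have e : (x0⁻¹ * x)⁻¹ * τ' (x0⁻¹ * x) = (x⁻¹ * τ x) * (x0⁻¹ * τ x0)⁻¹ := by
            rw [hτ', map_mul, map_inv]
            group
          show (x0⁻¹ * x)⁻¹ * τ' (x0⁻¹ * x) ∈ R
          rw [e]
          exact R.mul_mem hx (R.inv_mem hx0)
      refine Nat.card_le_card_of_injective (fun x => (⟨x0⁻¹ * x.1.1, key x⟩ :
        {w : ∀ i, T i // (∀ i ∉ J, w i = 1) ∧ w⁻¹ * τ' w ∈ R})) ?_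
      intro x y hxy
      have h5 := congrArg Subtype.val hxy
      exact Subtype.ext (Subtype.ext (mul_left_cancel h5))
    · have : IsEmpty {x : {x : ∀ i, T i // x⁻¹ * τ x ∈ R} //
        (QuotientGroup.mk x.1 : (∀ i, T i) ⧸ PJ T J) = q} := not_nonempty_iff.mp hne
      rw [Nat.card_of_isEmpty, mul_zero]
      exact Nat.zero_le _
  calc s * Nat.card {x : ∀ i, T i // x⁻¹ * τ x ∈ R}
      = ∑ q : (∀ i, T i) ⧸ PJ T J, s * Nat.card {x : {x : ∀ i, T i // x⁻¹ * τ x ∈ R} //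
        (QuotientGroup.mk x.1 : (∀ i, T i) ⧸ PJ T J) = q} := by rw [h1, Finset.mul_sum]
    _ ≤ ∑ _q : (∀ i, T i) ⧸ PJ T J, Nat.card (PJ T J) := Finset.sum_le_sum fun q _ => h2 q
    _ = Nat.card ((∀ i, T i) ⧸ PJ T J) * Nat.card (PJ T J) := by
      rw [Finset.sum_const, Finset.card_univ, smul_eq_mul, ← Nat.card_eq_fintype_card]
    _ = Nat.card (∀ i, T i) := (Subgroup.card_eq_card_quotient_mul_card_subgroup _).symm

end Pool.Agent.H85.NZ.FBF
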