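import Pool.Agent.H11.NZ.Targets

/-!
# Module FPS of the board nz_modules
-/

set_option autoImplicit false

open Equiv (Perm)

namespace Pool.Agent.H85.NZ.FPS

open Pool.Agent.H11.NY
open Pool.Agent.H11.NZ

section

variable {I : Type} [Fintype I] [DecidableEq I] {T : I → Type} [∀ i, Group (T i)]
  {σ : Perm I} {τ : (∀ i, T i) ≃* (∀ i, T i)}

omit [Fintype I] in
lemma over_single (hO : Over σ τ) (x : ∀ i, T i) (i : I) :
    τ x (σ i) = τ (Pi.mulSingle i (x i)) (σ i) :=
  hO i _ _ (by rw [Pi.mulSingle_eq_same])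

omit [Fintype I] in
/-- a coordinate of `τ x` is trivial only if the corresponding coordinate of `x` is -/
lemma over_one (hO : Over σ τ) (x : ∀ i, T i) (i : I) : τ x (σ i) = 1 ↔ x i = 1 := by
  constructor
  · intro h
    have h1 : τ (Pi.mulSingle i (x i)) = 1 := by
      funext l
      obtain ⟨k, rfl⟩ := σ.surjective l
      by_cases hk : k = i
      · rw [hk, ← over_single hO, h]
        rfl
      · have h2 : (Pi.mulSingle i (x i) : ∀ i, T i) k = (1 : ∀ i, T i) k :=
          Pi.mulSingle_eq_of_ne hk _
        have h3 := hO k _ _ h2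
        rw [h3, map_one]
    have h4 : (Pi.mulSingle i (x i) : ∀ i, T i) = 1 := by
      rw [← map_one τ] at h1
      exact τ.injective h1
    have h5 := congrFun h4 i
    rw [Pi.mulSingle_eq_same] at h5
    exact h5
  · intro h
    have h2 : x i = (1 : ∀ i, T i) i := h
    have h3 := hO i _ _ h2
    rw [h3, map_one]
    rfl

omit [DecidableEq I] in
/-- an automorphism mapping `R` into `R` maps `R` onto `R` -/
lemma onto [∀ i, Finite (T i)] {R : Subgroup (∀ i, T i)} (hR : ∀ r ∈ R, τ r ∈ R) :
    ∀ r ∈ R, ∃ r' ∈ R, τ r' = r := by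
  intro r hr
  let f : R → R := fun x => ⟨τ x.1, hR x.1 x.2⟩
  have hf : Function.Injective f := by
    intro x y hxy
    exact Subtype.ext (τ.injective (congrArg Subtype.val hxy))
  obtain ⟨x, hx⟩ := (Finite.injective_iff_surjective.mp hf) ⟨r, hr⟩
  exact ⟨x.1, x.2, congrArg Subtype.val hx⟩

end

/-- `k` dominates `i` -/
def Dom {I : Type} {T : I → Type} [∀ i, Group (T i)] (R : Subgroup (∀ i, T i)) (k i : I) : Prop :=
  ∀ r ∈ R, r k = 1 → r i = 1

theorem pf_fps : T_FPS := by
  classical
  intro I _ _ T _ _ R hsimple hnc htr hRtop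
  by_cases hcase : ∃ i : I, ∃ u : T i, ∀ r ∈ R, r i ≠ u
  · left
    obtain ⟨i, u, hu⟩ := hcase
    intro j
    by_contra hcon
    push Not at hcon
    -- `R` has all values at `j`
    obtain ⟨σ, τ, hσ, hO, hR⟩ := htr i j
    obtain ⟨σ', τ', hσ', hO', hR'⟩ := htr j i
    subst hσ
    let V : Type := {v : T i // ∃ r ∈ R, r i = v}
    have c1 : Nat.card (T (σ i)) ≤ Nat.card V := by
      have hch : ∀ u : T (σ i), ∃ v : V, τ (Pi.mulSingle i v.1) (σ i) = u := by
        intro u
        obtain ⟨r, hr, hru⟩ := hcon u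
        obtain ⟨r', hr', hr'r⟩ := onto hR r hr
        refine ⟨⟨r' i, r', hr', rfl⟩, ?_⟩
        simp only
        rw [← over_single hO, hr'r, hru]
      exact Nat.card_le_card_of_surjective (fun v : V => τ (Pi.mulSingle i v.1) (σ i)) hch
    have c2 : Nat.card V < Nat.card (T i) := by
      have h1 : Nat.card V ≤ Nat.card {v : T i // v ≠ u} := by
        refine Nat.card_le_card_of_injective (fun v : V => (⟨v.1, ?_⟩ : {v : T i // v ≠ u})) ?_
        · obtain ⟨r, hr, hrv⟩ := v.2
          rw [← hrv]
          exact hu r hr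
        · intro a b hab
          have hab' := congrArg (fun z : {v : T i // v ≠ u} => z.1) hab
          exact Subtype.ext hab'
      have h2 : Nat.card {v : T i // v ≠ u} < Nat.card (T i) := by
        have : Fintype (T i) := Fintype.ofFinite _
        rw [Nat.card_eq_fintype_card, Nat.card_eq_fintype_card]
        exact Fintype.card_subtype_lt (x := u) (fun h => h rfl)
      exact lt_of_le_of_lt h1 h2
    have c3 : Nat.card (T i) ≤ Nat.card (T (σ i)) := by
      have hch : ∀ u : T i, ∃ v : T (σ i), τ' (Pi.mulSingle (σ i) v) i = u := by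
        intro u
        obtain ⟨x, hx⟩ := τ'.surjective (Pi.mulSingle i u)
        refine ⟨x (σ i), ?_⟩
        have h1 := over_single hO' x (σ i)
        rw [hσ', hx, Pi.mulSingle_eq_same] at h1
        exact h1.symm
      exact Nat.card_le_card_of_surjective _ hch
    omega
  · right
    push Not at hcase
    -- no coordinate subgroup is contained in `R`
    have hF : ∀ i, ¬ ∀ t : T i, Pi.mulSingle i t ∈ R := by
      intro i hi
      apply hRtop
      rw [eq_top_iff]
      intro x _
      refine Subgroup.pi_mem_of_mulSingle_mem x fun j => ?_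
      obtain ⟨σ, τ, hσ, hO, hR⟩ := htr i j
      subst hσ
      obtain ⟨y, hy⟩ := τ.surjective (Pi.mulSingle (σ i) (x (σ i)))
      have h1 : y = Pi.mulSingle i (y i) := by
        funext k
        by_cases hk : k = i
        · subst hk
          rw [Pi.mulSingle_eq_same]
        · rw [Pi.mulSingle_eq_of_ne hk]
          rw [← over_one hO y k, hy]
          exact Pi.mulSingle_eq_of_ne (fun h => hk (σ.injective h)) _
      rw [← hy, h1]
      exact hR _ (hi _)
    have hdom : ∀ i, ∃ j, j ≠ i ∧ Dom R j i := by
      intro i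
      have := hsimple i
      let p : Finset I → Prop := fun J => ∃ r ∈ R, r i ≠ 1 ∧ ∀ k ∉ J, r k = 1
      have hne : (Finset.univ.filter p).Nonempty := by
        obtain ⟨u, hu⟩ := exists_ne (1 : T i)
        obtain ⟨r, hr, hru⟩ := hcase i u
        exact ⟨Finset.univ, Finset.mem_filter.mpr ⟨Finset.mem_univ _, r, hr, by rw [hru]; exact hu,
          fun k hk => absurd (Finset.mem_univ k) hk⟩⟩
      obtain ⟨J, hJ, hmin⟩ := Finset.exists_min_image (Finset.univ.filter p) Finset.card hne
      obtain ⟨r0, hr0, hr0i, hr0J⟩ := (Finset.mem_filter.mp hJ).2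
      -- the elements of `R` with support in `J`
      let RJ : Subgroup (∀ i, T i) :=
        { carrier := {r | r ∈ R ∧ ∀ k ∉ J, r k = 1}
          one_mem' := ⟨R.one_mem, fun _ _ => rfl⟩
          mul_mem' := by
            rintro x y ⟨hx, hx1⟩ ⟨hy, hy1⟩
            exact ⟨R.mul_mem hx hy, fun k hk => by
              rw [Pi.mul_apply, hx1 k hk, hy1 k hk, one_mul]⟩
          inv_mem' := by
            rintro x ⟨hx, hx1⟩
            exact ⟨R.inv_mem hx, fun k hk => by rw [Pi.inv_apply, hx1 k hk, inv_one]⟩ }
      have hconj : ∀ r ∈ R, ∀ c ∈ RJ, r * c * r⁻¹ ∈ RJ := by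
        rintro r hr c ⟨hc, hc1⟩
        refine ⟨R.mul_mem (R.mul_mem hr hc) (R.inv_mem hr), fun k hk => ?_⟩
        rw [Pi.mul_apply, Pi.mul_apply, Pi.inv_apply, hc1 k hk, mul_one, mul_inv_cancel]
      have hN : ∀ t : T i, ∃ c ∈ RJ, c i = t := by
        have hnorm : (RJ.map (Pi.evalMonoidHom T i)).Normal := by
          constructor
          rintro _ ⟨c, hc, rfl⟩ t
          obtain ⟨r, hr, hrt⟩ := hcase i t
          refine ⟨r * c * r⁻¹, hconj r hr c hc, ?_⟩
          simp only [Pi.evalMonoidHom_apply, Pi.mul_apply, Pi.inv_apply]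
          rw [hrt]
        rcases hnorm.eq_bot_or_eq_top with h | h
        · exfalso
          have h1 : r0 i ∈ RJ.map (Pi.evalMonoidHom T i) := ⟨r0, ⟨hr0, hr0J⟩, rfl⟩
          rw [h, Subgroup.mem_bot] at h1
          exact hr0i h1
        · intro t
          have h1 : t ∈ RJ.map (Pi.evalMonoidHom T i) := by rw [h]; exact Subgroup.mem_top t
          obtain ⟨c, hc, hct⟩ := h1
          exact ⟨c, hc, hct⟩
      obtain ⟨j, hjJ, hji⟩ : ∃ j ∈ J, j ≠ i := by
        by_contra hcon
        push Not at hcon
        apply hF i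
        intro t
        obtain ⟨c, hc, hct⟩ := hN t
        have e : c = Pi.mulSingle i t := by
          funext k
          by_cases hk : k = i
          · subst hk
            rw [Pi.mulSingle_eq_same, hct]
          · rw [Pi.mulSingle_eq_of_ne hk]
            exact hc.2 k fun hkJ => hk (hcon k hkJ)
        rw [← e]
        exact hc.1
      have herase : ∀ c ∈ RJ, c j = 1 → c i = 1 := by
        intro c hc hcj
        by_contra hci
        have h1 : J.erase j ∈ Finset.univ.filter p := by
          refine Finset.mem_filter.mpr ⟨Finset.mem_univ _, c, hc.1, hci, fun k hk => ?_⟩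
          by_cases hkj : k = j
          · rw [hkj, hcj]
          · exact hc.2 k fun hkJ => hk (Finset.mem_erase.mpr ⟨hkj, hkJ⟩)
        have h2 := hmin _ h1
        have h3 := Finset.card_erase_lt_of_mem hjJ
        omega
      refine ⟨j, hji, fun r hr hrj => ?_⟩
      have hcomm : ∀ t : T i, r i * t = t * r i := by
        intro t
        obtain ⟨c, hc, hct⟩ := hN t
        have h1 : r * c * r⁻¹ * c⁻¹ ∈ RJ := RJ.mul_mem (hconj r hr c hc) (RJ.inv_mem hc)
        have h2 := herase _ h1 (by
          simp only [Pi.mul_apply, Pi.inv_apply]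
          rw [hrj]
          group)
        simp only [Pi.mul_apply, Pi.inv_apply] at h2
        rw [hct, mul_inv_eq_one, mul_inv_eq_iff_eq_mul] at h2
        exact h2
      have hcen : r i ∈ Subgroup.center (T i) := Subgroup.mem_center_iff.mpr fun t => (hcomm t).symm
      rcases (inferInstance : (Subgroup.center (T i)).Normal).eq_bot_or_eq_top with h | h
      · rw [h, Subgroup.mem_bot] at hcen
        exact hcen
      · exfalso
        obtain ⟨x, y, hxy⟩ := hnc i
        have h1 : x ∈ Subgroup.center (T i) := by rw [h]; exact Subgroup.mem_top x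
        exact hxy ((Subgroup.mem_center_iff.mp h1 y).symm)
    -- domination is symmetric
    have hpres : ∀ (σ : Perm I) (τ : (∀ i, T i) ≃* (∀ i, T i)), Over σ τ → (∀ r ∈ R, τ r ∈ R) →
        ∀ k i, Dom R k i → Dom R (σ k) (σ i) := by
      intro σ τ hO hR k i hki r hr hrk
      obtain ⟨r', hr', hr'r⟩ := onto hR r hr
      rw [← hr'r] at hrk ⊢
      exact (over_one hO r' i).mpr (hki r' hr' ((over_one hO r' k).mp hrk))
    have hcard : ∀ i j, (Finset.univ.filter fun k => Dom R k i).card ≤
        (Finset.univ.filter fun k => Dom R k j).card := by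
      intro i j
      obtain ⟨σ, τ, hσ, hO, hR⟩ := htr i j
      subst hσ
      refine Finset.card_le_card_of_injOn σ ?_ σ.injective.injOn
      intro k hk
      have hk' : Dom R k i := (Finset.mem_filter.mp (Finset.mem_coe.mp hk)).2
      exact Finset.mem_coe.mpr (Finset.mem_filter.mpr ⟨Finset.mem_univ _,
        hpres σ τ hO hR k i hk'⟩)
    intro i
    obtain ⟨j, hji, hd⟩ := hdom i
    refine ⟨j, hji, ?_⟩
    have hsub : (Finset.univ.filter fun k => Dom R k j) ⊆ Finset.univ.filter fun k => Dom R k i := by
      intro k hk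
      have hk' := (Finset.mem_filter.mp hk).2
      exact Finset.mem_filter.mpr ⟨Finset.mem_univ _, fun r hr h => hd r hr (hk' r hr h)⟩
    have heq := Finset.eq_of_subset_of_card_le hsub (hcard i j)
    have hii : i ∈ Finset.univ.filter fun k => Dom R k i :=
      Finset.mem_filter.mpr ⟨Finset.mem_univ _, fun r _ h => h⟩
    rw [← heq] at hii
    have hij : Dom R i j := (Finset.mem_filter.mp hii).2
    exact fun r hr => ⟨fun h => hij r hr h, fun h => hd r hr h⟩

end Pool.Agent.H85.NZ.FPS
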